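import Pool.Agent.H17.CI.TargetsB

/-!
# MP_70ba79_ag, modules EVT and SUT of the board `ci_modules`
-/

set_option autoImplicit false

namespace Pool.Agent.H65.CI

open MvPolynomial SC Pool.Agent.H27.LV Pool.Agent.H17.VG Pool.Agent.H17.CI

theorem eval_dir {K : Type} [Field K] {n : ℕ} (x w : Fin (n + 1) → K)
    (G : MvPolynomial (Fin (n + 1)) K) :
    eval x (dir w G) = ∑ j, w j * eval x (pderiv j G) := by
  simp [dir, map_sum]

theorem opF_zeroMat {R K : Type} [Field R] [Field K] [Algebra R K] {n : ℕ}
    (θ : Derivation R K K) (G : MvPolynomial (Fin (n + 1)) K) :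
    opF ((θ, 0) : Op R K n) G = cD θ G := by
  simp [opF]

theorem pf_EVT (hEV : T_EV) (hRS : T_RS) : T_EVT := by
  intro R K _ _ _ _ n ι e F D Z x hS hP
  have hxT : x ∈ TxT Z F x := by
    intro i hi
    rw [← eval_dir]
    obtain ⟨-, -, -, -, -, -, -, -, -, h, -⟩ := hRS K n (e i + 1) (F i) 0 0 0 0 x 0 0 0
    rw [h (hS.homog i), (hP.on i).2 hi, mul_zero]
  have hval : ∀ (τ : Op R K n) (l : ι → K) (G : Tup ι K n), Sym F τ l G →
      (opV τ x) 0 = 0 ∧ (∀ i, τ.1 (eval x (F i)) = eval x (G i) - l i * eval x (F i) +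
        eval x (dir (opV τ x) (F i))) := by
    intro τ l G h
    refine ⟨?_, ?_⟩
    · have hA : ∀ j, τ.2 0 j = 0 := h.1
      simp [opV, hP.one, hA]
    · intro i
      rw [hEV R K n τ (F i) x, ← h.2 i]
      simp
  have hDx : (fun i => D (x i)) ∈ TxT Z F x := by
    intro i hi
    rw [← eval_dir]
    have h := hEV R K n ((D, 0) : Op R K n) (F i) x
    rw [(hP.on i).2 hi, opF_zeroMat, hS.base i] at h
    have h2 : opV ((D, 0) : Op R K n) x = fun i => D (x i) := by
      funext j
      simp [opV]
    rw [h2] at h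
    simpa using h.symm
  have htan : ∀ (τ : Op R K n) (l : ι → K) (G : Tup ι K n), Sym F τ l G →
      (∀ i ∈ Z, eval x (G i) = 0) → opV τ x ∈ TxT Z F x := by
    intro τ l G h hG i hi
    rw [← eval_dir]
    have h1 := (hval τ l G h).2 i
    rw [(hP.on i).2 hi, hG i hi] at h1
    simpa using h1.symm
  refine ⟨fun τ l G h => ⟨(hval τ l G h).1, (hval τ l G h).2, htan τ l G h⟩, hxT, hDx, ?_, ?_⟩
  · classical
    let N : Matrix Z (Fin (n + 1)) K := Matrix.of fun i j => eval x (pderiv j (F i))
    have hli : LinearIndependent K N.row := by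
      have := hP.grad
      refine LinearIndependent.of_comp (LinearMap.funLeft K K (Fin.succ : Fin n → Fin (n + 1))) ?_
      exact this
    have hrank : N.rank = Z.card := by
      rw [hli.rank_matrix]
      simp
    have hker : LinearMap.ker N.mulVecLin = TxT Z F x := by
      ext w
      rw [LinearMap.mem_ker, Matrix.mulVecLin_apply]
      constructor
      · intro h i hi
        have := congrFun h ⟨i, hi⟩
        simp only [Matrix.mulVec, dotProduct, N, Matrix.of_apply, Pi.zero_apply] at this
        rw [← this]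
        exact Finset.sum_congr rfl fun j _ => mul_comm _ _
      · intro h
        funext i
        have := h i.1 i.2
        simp only [Matrix.mulVec, dotProduct, N, Matrix.of_apply, Pi.zero_apply]
        rw [← this]
        exact Finset.sum_congr rfl fun j _ => mul_comm _ _
    have h := LinearMap.finrank_range_add_finrank_ker N.mulVecLin
    rw [hker] at h
    have h2 : Module.finrank K (LinearMap.range N.mulVecLin) = Z.card := hrank
    rw [h2] at h
    simp only [Module.finrank_fintype_fun_eq_card, Fintype.card_fin] at h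
    omega
  · intro W hW
    refine Submodule.span_le.2 ?_
    rintro w (⟨τ, l, G, hGW, hs, rfl⟩ | hw)
    · exact htan τ l G hs (hW G hGW)
    · rw [Set.mem_singleton_iff] at hw
      rw [hw]
      exact hxT

theorem pf_SUT (hEV : T_EV) (hRS : T_RS) : T_SUT := by
  intro R K _ _ _ _ n ι e F D Z x hS hP w hw
  classical
  obtain ⟨hval, hxT, -, -, -⟩ := pf_EVT hEV hRS R K n ι e F D Z x hS hP
  set w' : Fin (n + 1) → K := w + (-(w 0)) • x with hw'
  have hw'0 : w' 0 = 0 := by simp [hw', hP.one]
  have hw'T : w' ∈ TxT Z F x := (TxT Z F x).add_mem hw ((TxT Z F x).smul_mem _ hxT)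
  let τ : Op R K n := (0, Matrix.of fun i j => if j = 0 then -(w' i) else 0)
  have hτx : opV τ x = w' := by
    funext i
    simp [opV, τ, hP.one]
  let l : ι → K := fun i => if i ∈ Z then 0 else eval x (dir w' (F i)) / eval x (F i)
  let G : Tup ι K n := fun i => opF τ (F i) + C (l i) * F i
  have hsym : Sym F τ l G := by
    refine ⟨?_, fun i => rfl⟩
    intro j
    simp [τ, hw'0]
  refine ⟨τ, l, G, -(w 0), hsym, ?_, hτx⟩
  intro i
  have h1 := (hval τ l G hsym).2.1 i
  rw [hτx] at h1
  have h0 : τ.1 (eval x (F i)) = 0 := by simp [τ]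
  rw [h0] at h1
  by_cases hi : i ∈ Z
  · have h2 : eval x (dir w' (F i)) = 0 := by
      rw [eval_dir]
      exact hw'T i hi
    rw [(hP.on i).2 hi, h2] at h1
    simpa using h1.symm
  · have h3 : eval x (F i) ≠ 0 := fun h => hi ((hP.on i).1 h)
    have h4 : l i * eval x (F i) = eval x (dir w' (F i)) := by
      simp only [l, if_neg hi]
      exact div_mul_cancel₀ _ h3
    rw [h4] at h1
    simpa using h1.symm

end Pool.Agent.H65.CI
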