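import Pool.Agent.H65.CI.BIT
import Pool.Agent.H90.VG.ST

/-!
# MP_70ba79_ag, module STT of the board `ci_modules`
-/

set_option autoImplicit false

namespace Pool.Agent.H65.CI

open MvPolynomial SC Pool.Agent.H27.LV Pool.Agent.H17.VG Pool.Agent.H17.CI

section

variable {K : Type} [Field K] {n : ℕ} {ι : Type}

open Classical in
/-- coefficients of the family with one component -/
noncomputable def cf {e : ι → ℕ} (i : ι) (Q : MvPolynomial (Fin (n + 1)) K) :
    (Σ i, Mon (n + 1) (e i)) → K :=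
  fun a => if a.1 = i then coeff (fs a.2.1) Q else 0

theorem frmT_cf [DecidableEq ι] {e : ι → ℕ} (i : ι) {Q : MvPolynomial (Fin (n + 1)) K}
    (hQ : Q.IsHomogeneous (e i)) : frmT (e := e) (cf i Q) = Pi.single i Q := by
  classical
  funext j
  unfold frmT cf
  by_cases h : j = i
  · subst h
    simp only [if_true, Pi.single_eq_same]
    exact frm_coeff hQ
  · simp only [if_neg h, Pi.single_eq_of_ne h]
    simp [frm]

theorem ilT_eq [Fintype ι] (e : ι → ℕ) (x y : Fin (n + 1) → K) (φ : Vx x →ₗ[K] K)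
    (hφ : ∀ v : Vx x, φ v = ∑ i, v.1 i * y i) :
    Submodule.span K {G : Tup ι K n | ∃ p ∈ {p : Vx x × ((Σ i, Mon (n + 1) (e i)) → K) |
      φ p.1 = 0}, G = fun i => lin p.1.1 * frmT p.2 i} = IlT e x y := by
  classical
  apply le_antisymm
  · rw [Submodule.span_le]
    rintro G ⟨⟨ξ, q⟩, h, rfl⟩
    unfold IlT
    rw [SetLike.mem_coe, Submodule.mem_pi]
    intro i _
    refine Submodule.subset_span ⟨ξ.1, frmT q i, ξ.2, ?_, frm_homog _, rfl⟩
    rw [← hφ]
    exact h
  · intro G hG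
    unfold IlT at hG
    rw [Submodule.mem_pi] at hG
    have hsum : G = ∑ i, LinearMap.single K (fun _ : ι => MvPolynomial (Fin (n + 1)) K) i (G i) := by
      simp only [LinearMap.coe_single]
      exact (Finset.univ_sum_single G).symm
    rw [hsum]
    refine Submodule.sum_mem _ fun i _ => ?_
    have hle : Il (e i) x y ≤ (Submodule.span K {G : Tup ι K n |
        ∃ p ∈ {p : Vx x × ((Σ i, Mon (n + 1) (e i)) → K) | φ p.1 = 0},
          G = fun i => lin p.1.1 * frmT p.2 i}).comap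
        (LinearMap.single K (fun _ : ι => MvPolynomial (Fin (n + 1)) K) i) := by
      unfold Il
      rw [Submodule.span_le]
      rintro G' ⟨ξ, Q, h, h', hQ, rfl⟩
      rw [SetLike.mem_coe, Submodule.mem_comap]
      refine Submodule.subset_span ⟨⟨⟨ξ, h⟩, cf i Q⟩, ?_, ?_⟩
      · show φ ⟨ξ, h⟩ = 0
        rw [hφ]
        exact h'
      · funext j
        rw [frmT_cf i hQ]
        by_cases hj : j = i
        · subst hj
          simp
        · simp [Pi.single_eq_of_ne hj]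
    exact hle (hG i (Set.mem_univ i))

end

theorem pf_STT (hBT : Pool.Agent.H17.CI.T_BT) (hCT : Pool.Agent.H17.CI.T_CT)
    (hKP : Pool.Agent.H17.VG.T_KP) (hBIT : Pool.Agent.H17.CI.T_BIT)
    (hTPT : Pool.Agent.H17.CI.T_TPT) (hEVT : Pool.Agent.H17.CI.T_EVT) :
    Pool.Agent.H17.CI.T_STT := by
  classical
  intro R k K _ _ _ _ _ _ _ n ι _ e F D Z x hZn hne hS hP hE
  have hx : x ≠ 0 := by
    intro h
    have := hP.one
    rw [h] at this
    exact zero_ne_one this
  obtain ⟨-, -, -, hfr, hle⟩ := hEVT R K n ι e F D Z x hS hP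
  obtain ⟨B, hBd⟩ := hBIT R K n ι e F D Z x hS hP
  set N := (Fin (n + 1) → K) ⧸ Submodule.span K {x, fun i => D (x i)} with hN
  set E := (Σ i, Mon (n + 1) (e i)) → K with hEdef
  -- spanning
  have hspan : Module.finrank K (Submodule.span K {w | ∃ v q, w = B v q}) + 1 = n - Z.card := by
    have h1 := hBd Set.univ
    have h2 : {G : Tup ι K n | ∃ p ∈ (Set.univ : Set (Vx x × E)),
        G = fun i => lin p.1.1 * frmT p.2 i} = {G | ∃ (ξ : Fin (n + 1) → K) (q : E),
        ∑ i, ξ i * x i = 0 ∧ G = fun i => lin ξ * frmT q i} := by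
      ext G
      constructor
      · rintro ⟨⟨ξ, q⟩, _, rfl⟩
        exact ⟨ξ.1, q, ξ.2, rfl⟩
      · rintro ⟨ξ, q, h, rfl⟩
        exact ⟨⟨⟨ξ, h⟩, q⟩, trivial, rfl⟩
    have h3 : {w | ∃ p ∈ (Set.univ : Set (Vx x × E)), w = B p.1 p.2} =
        {w | ∃ v q, w = B v q} := by
      ext w
      constructor
      · rintro ⟨⟨v, q⟩, _, rfl⟩
        exact ⟨v, q, rfl⟩
      · rintro ⟨v, q, rfl⟩
        exact ⟨⟨v, q⟩, trivial, rfl⟩
    rw [h2, h3, hTPT R K n ι e F D Z x hS hP] at h1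
    omega
  -- hyperplanes
  have hhyp : ∀ φ : Vx x →ₗ[K] K, φ ≠ 0 →
      n - Z.card ≤ Module.finrank K (Submodule.span K {w | ∃ v q, φ v = 0 ∧ w = B v q}) + 1 +
        (∑ i, (e i + 1) - n) := by
    intro φ hφ
    obtain ⟨ψ, hψ⟩ := LinearMap.exists_extend φ
    set y0 : Fin (n + 1) → K := fun i => ψ (Pi.single i 1) with hy0
    have hψy : ∀ ξ, ψ ξ = ∑ i, ξ i * y0 i := by
      intro ξ
      conv_lhs => rw [pi_eq_sum_univ' ξ]
      rw [map_sum]
      refine Finset.sum_congr rfl fun i _ => ?_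
      rw [map_smul, smul_eq_mul]
    have hφy0 : ∀ v : Vx x, φ v = ∑ i, v.1 i * y0 i := by
      intro v
      rw [← hψ, LinearMap.comp_apply, hψy]
      rfl
    obtain ⟨y, hy⟩ : ∃ y : Fin (n + 1) → K, y = fun i => y0 i - y0 0 * x i := ⟨_, rfl⟩
    have hyy : y 0 = 0 := by rw [hy]; simp [hP.one]
    have hφy : ∀ v : Vx x, φ v = ∑ i, v.1 i * y i := by
      intro v
      rw [hφy0, hy]
      have h0 : ∑ i, v.1 i * x i = 0 := v.2
      have h1 : ∑ i, v.1 i * (y0 i - y0 0 * x i) = ∑ i, v.1 i * y0 i - y0 0 * ∑ i, v.1 i * x i := by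
        rw [Finset.mul_sum, ← Finset.sum_sub_distrib]
        exact Finset.sum_congr rfl fun i _ => by ring
      rw [h1, h0, mul_zero, sub_zero]
    have hy1 : y ≠ 0 := by
      intro h
      apply hφ
      ext v
      rw [hφy, h]
      simp
    have h1 := hBd {p | φ p.1 = 0}
    have h3 : {w | ∃ p ∈ {p : Vx x × E | φ p.1 = 0}, w = B p.1 p.2} =
        {w | ∃ v q, φ v = 0 ∧ w = B v q} := by
      ext w
      constructor
      · rintro ⟨⟨v, q⟩, h, rfl⟩
        exact ⟨v, q, h, rfl⟩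
      · rintro ⟨v, q, h, rfl⟩
        exact ⟨⟨v, q⟩, h, rfl⟩
    rw [ilT_eq e x y φ hφy, h3] at h1
    have h4 : UtT R F x (IlT e x y) ≤ TxT Z F x := by
      refine hle _ ?_
      intro G hG i _
      unfold IlT at hG
      rw [Submodule.mem_pi] at hG
      have h5 : Il (e i) x y ≤ LinearMap.ker (aeval (R := K) x).toLinearMap := by
        unfold Il
        rw [Submodule.span_le]
        rintro G' ⟨ξ, Q, h, h', hQ, rfl⟩
        rw [SetLike.mem_coe, LinearMap.mem_ker]
        show aeval x (lin ξ * Q) = 0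
        rw [map_mul]
        have h6 : aeval x (lin ξ) = ∑ i, ξ i * x i := by
          simp [lin]
        rw [h6, h, zero_mul]
      have h7 := h5 (hG i (Set.mem_univ i))
      rw [LinearMap.mem_ker] at h7
      have h8 : aeval x (G i) = eval x (G i) := by
        rw [MvPolynomial.aeval_eq_eval]
      rw [← h8]
      exact h7
    have h5 := Submodule.finrank_mono h4
    obtain ⟨m, hm⟩ := Nat.exists_eq_add_of_le h5
    have hm2 : Module.finrank K (UtT R F x (IlT e x y)) + m + Z.card = n + 1 := by omega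
    by_cases hm3 : n + 1 ≤ 2 * m + Z.card
    · have := hBT R K n ι e F D Z x y hS hP hyy hy1 (hE y hyy hy1) m hm2 hm3
      omega
    · omega
  obtain ⟨Q, hQ⟩ := hCT K (Vx x) E N B (n - Z.card) (∑ i, (e i + 1) - n) hspan (by omega) hhyp
  obtain ⟨Q', hQ'⟩ := hKP k K (Vx x) N (Fin (∑ i, (e i + 1) - n - 1)) (Σ i, Mon (n + 1) (e i)) B Q
    _ le_rfl
  refine ⟨Q', ?_⟩
  have hup : ∀ (q : (Σ i, Mon (n + 1) (e i)) → k),
      upT K (frmT q) = frmT (fun β => algebraMap k K (q β)) := by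
    intro q
    funext i
    exact Pool.Agent.H90.VG.up_frm _
  have h1 := hBd {p | ∃ j, p.2 = fun β => algebraMap k K (Q' j β)}
  have h2 : Submodule.span K {G : Tup ι K n | ∃ p ∈ {p : Vx x × E |
      ∃ j, p.2 = fun β => algebraMap k K (Q' j β)}, G = fun i => lin p.1.1 * frmT p.2 i} =
      PQT x fun j => upT K (frmT (Q' j)) := by
    unfold PQT
    congr 1
    ext G
    constructor
    · rintro ⟨⟨ξ, q⟩, ⟨j, hj⟩, rfl⟩
      refine ⟨ξ.1, j, ξ.2, ?_⟩
      beta_reduce
      rw [hup]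
      simp only at hj
      rw [hj]
    · rintro ⟨ξ, j, h, rfl⟩
      refine ⟨⟨⟨ξ, h⟩, fun β => algebraMap k K (Q' j β)⟩, ⟨j, rfl⟩, ?_⟩
      beta_reduce
      rw [hup]
  have h3 : Submodule.span K {w | ∃ p ∈ {p : Vx x × E |
      ∃ j, p.2 = fun β => algebraMap k K (Q' j β)}, w = B p.1 p.2} =
      im B (fun i j => algebraMap k K (Q' i j)) := by
    unfold im
    congr 1
    ext w
    constructor
    · rintro ⟨⟨v, q⟩, ⟨j, hj⟩, rfl⟩
      simp only at hj
      exact ⟨v, j, by rw [hj]⟩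
    · rintro ⟨v, j, rfl⟩
      exact ⟨⟨v, fun β => algebraMap k K (Q' j β)⟩, ⟨j, rfl⟩, rfl⟩
  rw [h2, h3] at h1
  have h5 := le_trans hQ (le_trans (Nat.add_le_add_right hQ' 2) (le_of_eq h1.symm))
  omega

end Pool.Agent.H65.CI
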